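import Mathlib
import Pool.Agent.H422.SK.Miss
import Pool.Agent.H422.SK.AP
import Pool.Agent.H422.SK.Exc

/-!
# Dynamical Mordell-Lang for products of a rational function with any endomorphism of any affine variety

Let `K` be any field of characteristic zero, for example `ℂ`, and let `g` be a rational function of degree
`d ≥ 2` over `K` without exceptional points: `g` is conjugate over the algebraic closure neither to a
polynomial nor to `z ^ (-d)`. Let `x` be a point of `P^1(K)` with infinite orbit under `g`.

**Theorem 1 (integral points).** Let `R` be a finitely generated subring of `K` and `V` a closed subset of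
`P^1 × A^M`.
(a) If `V` has dimension at most one, then for all but finitely many `n` no point of `V` with coordinates in
`R` lies over `g^n(x)`, except for the points of the lines `P^1 × {u}` which are contained in `V`.
(b) The same holds (and there are no such lines) if `V`, of any dimension, misses one of the fibres
`{α} × A^M`. For `V = {t = u}` and `α = ∞` this is Silverman's theorem: only finitely many members of the
orbit are integral.

**Theorem 2 (products).** Let `f` be any endomorphism of any affine variety `Y ⊆ A^M` and `u ∈ Y(K)`.
(a) For every closed `V` of dimension at most one in `P^1 × Y` the set of the `n` with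
`(g^n(x), f^n(u)) ∈ V` is a finite union of arithmetic progressions, and it is finite if the orbit of `u` is
infinite.
(b) It is finite for every closed `V ⊆ P^1 × Y`, of any dimension, which misses one of the fibres
`{α} × Y`.

**Theorem 3.** Let `h` be any nonconstant rational function which has an exceptional point over the algebraic
closure: `h` is conjugate to a polynomial or to `z ^ (-e)`; for example any Möbius transformation. The map
`(g, h)` of `P^1 × P^1` has the complete Dynamical Mordell-Lang property, for all points and all closed
subsets.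

There is no condition on critical points, on periodic points or on degrees. If `g` also has an exceptional
point then the second iterate of `(g, h)` is conjugate to a pair of polynomials and Theorem 3 is Xie's
theorem on the affine plane. So Theorem 3 leaves open, for products of two rational functions, only the pairs
without exceptional points.

## Proof

Over a number field: the coordinates `u_n` are `S`-integers, so the height of `u_n` is a sum over the places
in `S`. If `(g^n(x), u_n)` is in the curve `V`, which has no horizontal component at `u_n`, then the height of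
`u_n` is at least a positive multiple of that of `g^n(x)`. So for one of the places in `S` the point `u_n` is
large, `log |u_n| ≥ c d^n`, and `g^n(x)` is as close as `exp (- c' d^n)` to one of finitely many
points of `P^1`. This contradicts Roth's theorem, applied to the preimages of these points under a high
iterate of `g` (Silverman's theorem on integral points in orbits, `engine`), because `g` has no exceptional
points (`int_orbit`). If `V` misses a fibre then by Hilbert's Nullstellensatz a coordinate of `P^1` with
its pole at `α` is integral over the ring generated by the `u_i` on `V` (`miss_nf`, `miss_any`).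

In Theorem 3 the orbit of `h` is integral in a coordinate with its pole at the exceptional point, because
`h ∘ h` is a polynomial in this coordinate (`exc_alg`).

Over a field of characteristic zero: we specialize everything to a number field (`spec_core`, `core_z`).
The point `x` remains wandering by the theorem on specializations of wandering points of the library, and
certificates of Hilbert's Nullstellensatz show that the map remains an endomorphism and that there are still
no exceptional points.
-/

set_option autoImplicit false

open MvPolynomial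

namespace Pool.Agent.Results.MP_295d38_ag.RationalTimesAffine

/-- A rational function of degree `d`, that is an endomorphism of `P^1`: two forms of degree `d` without
common zero over the algebraic closure but `0`. -/
structure RatMap (K : Type) [Field K] (d : ℕ) where
  F : Fin 2 → MvPolynomial (Fin 2) K
  homogeneous : ∀ i, (F i).IsHomogeneous d
  regular : ∀ x : Fin 2 → AlgebraicClosure K, (∀ i, aeval x (F i) = 0) → x = 0

/-- The rational function on homogeneous coordinates, with values in any field which contains `K`. -/
noncomputable def RatMap.map {K : Type} [Field K] {d : ℕ} (g : RatMap K d) {L : Type} [Field L]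
    [Algebra K L] (x : Fin 2 → L) : Fin 2 → L :=
  fun i => aeval x (g.F i)

/-- The orbit of the point `x` of `P^1` is infinite. -/
def RatMap.Wandering {K : Type} [Field K] {d : ℕ} (g : RatMap K d) (x : Fin 2 → K) : Prop :=
  ∀ i j : ℕ, i ≠ j → ∀ c : K, g.map^[i] x ≠ c • g.map^[j] x

/-- There is no exceptional point: no point of `P^1` over the algebraic closure, the zero of the linear
form `u_0 x_0 + u_1 x_1`, is totally invariant under `g ∘ g`, that is, the pull-back of the linear form
by `g ∘ g` is not a constant times its power. -/
def RatMap.NoExceptionalPoint {K : Type} [Field K] {d : ℕ} (g : RatMap K d) : Prop :=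
  ∀ u : Fin 2 → AlgebraicClosure K, u ≠ 0 → ∀ c : AlgebraicClosure K,
    ¬ ∀ x : Fin 2 → AlgebraicClosure K,
      u 0 * g.map^[2] x 0 + u 1 * g.map^[2] x 1 = c * (u 0 * x 0 + u 1 * x 1) ^ (d ^ 2)

/-- The self-map of `A^M` given by arbitrary polynomials `f_1, ..., f_M`. (Every endomorphism of a closed
subvariety of `A^M` is the restriction of such a map.) -/
noncomputable def polyMap {K : Type} [Field K] {M : ℕ} (f : Fin M → MvPolynomial (Fin M) K)
    (u : Fin M → K) : Fin M → K :=
  fun i => eval u (f i)

/-- A closed subset of `P^1 × A^M`, given by polynomials in the homogeneous coordinates `x_0, x_1` of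
`P^1` and the coordinates `u_i` of `A^M`, which are homogeneous in `x_0, x_1`. -/
structure ClosedPA (K : Type) [Field K] (M : ℕ) where
  eqs : Set (MvPolynomial (Fin 2 ⊕ Fin M) K)
  homogeneous : ∀ F ∈ eqs, ∃ p : ℕ, IsWeightedHomogeneous
    (Sum.elim (fun _ : Fin 2 => (1 : ℕ)) (fun _ : Fin M => (0 : ℕ))) F p

/-- The point `([x_0 : x_1], u)` is in `V`. -/
def ClosedPA.Has {K : Type} [Field K] {M : ℕ} (V : ClosedPA K M) (x : Fin 2 → K) (u : Fin M → K) :
    Prop :=
  ∀ F ∈ V.eqs, eval (Sum.elim x u) F = 0

/-- For each `i` the functions `t = x_1 / x_0` and `u_i` satisfy a polynomial equation on `V`: the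
images of `V` in the `(t, u_i)`-planes are not dense. All closed subsets of dimension at most one have
this property. -/
def ClosedPA.CurveLike {K : Type} [Field K] {M : ℕ} (V : ClosedPA K M) : Prop :=
  ∀ i, ∃ P : MvPolynomial (Fin 2) K, P ≠ 0 ∧
    ∀ (x : Fin 2 → K) (u : Fin M → K), V.Has x u → x 0 ≠ 0 → eval ![x 1 / x 0, u i] P = 0

/-- There is a point `α` of `P^1` over the algebraic closure such that `V` has no point over `α` (over the
algebraic closure). -/
def ClosedPA.MissesFibre {K : Type} [Field K] {M : ℕ} (V : ClosedPA K M) : Prop :=
  ∃ α : Fin 2 → AlgebraicClosure K, α ≠ 0 ∧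
    ∀ u : Fin M → AlgebraicClosure K, ∃ F ∈ V.eqs, aeval (Sum.elim α u) F ≠ 0

/-- A closed subset of `P^1 × P^1`, given by bihomogeneous polynomials. -/
structure ClosedPP (K : Type) [Field K] where
  eqs : Set (MvPolynomial (Fin 2 ⊕ Fin 2) K)
  homogeneous_fst : ∀ F ∈ eqs, ∃ p : ℕ, IsWeightedHomogeneous
    (Sum.elim (fun _ : Fin 2 => (1 : ℕ)) (fun _ : Fin 2 => (0 : ℕ))) F p
  homogeneous_snd : ∀ F ∈ eqs, ∃ p : ℕ, IsWeightedHomogeneous
    (Sum.elim (fun _ : Fin 2 => (0 : ℕ)) (fun _ : Fin 2 => (1 : ℕ))) F p

/-- The point `([x_0 : x_1], [y_0 : y_1])` is in `V`. -/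
def ClosedPP.Has {K : Type} [Field K] (V : ClosedPP K) (x y : Fin 2 → K) : Prop :=
  ∀ F ∈ V.eqs, eval (Sum.elim x y) F = 0

/-- `V` is not the whole surface. -/
def ClosedPP.Proper {K : Type} [Field K] (V : ClosedPP K) : Prop :=
  ∃ F ∈ V.eqs, F ≠ 0

/-- `R` is a finite union of arithmetic progressions `{a + r j : j ≥ 0}`, where `r = 0` is allowed. -/
def FiniteUnionOfProgressions (R : Set ℕ) : Prop :=
  ∃ T : Finset (ℕ × ℕ), R = ⋃ p ∈ T, Set.range fun j : ℕ => p.1 + p.2 * j

lemma map_eq {K : Type} [Field K] {d : ℕ} (g : RatMap K d) :
    (g.map : (Fin 2 → K) → _) = Pool.Agent.Q170.HG.pt g.F := by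
  funext x i
  rw [RatMap.map, Pool.Agent.Q170.HG.pt, aeval_eq_eval]

/-- **Dynamical Mordell-Lang for products with a rational function.** -/
theorem result (K : Type) [Field K] [CharZero K] (d : ℕ) (hd : 2 ≤ d) (g : RatMap K d)
    (hg : g.NoExceptionalPoint) :
    -- Theorem 1: integral points
    (∀ x : Fin 2 → K, g.Wandering x → ∀ T : Set K, T.Finite → ∀ (M : ℕ) (V : ClosedPA K M),
      (V.CurveLike → {n | ∃ u : Fin M → K, (∀ i, u i ∈ Algebra.adjoin ℤ T) ∧
        V.Has (g.map^[n] x) u ∧ ¬ ∀ z, V.Has z u}.Finite) ∧
      (V.MissesFibre → {n | ∃ u : Fin M → K, (∀ i, u i ∈ Algebra.adjoin ℤ T) ∧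
        V.Has (g.map^[n] x) u}.Finite)) ∧
    -- Theorem 2: products with affine varieties
    (∀ x : Fin 2 → K, g.Wandering x → ∀ (M : ℕ) (f : Fin M → MvPolynomial (Fin M) K)
      (u : Fin M → K) (V : ClosedPA K M),
      (V.CurveLike →
        FiniteUnionOfProgressions {n | V.Has (g.map^[n] x) ((polyMap f)^[n] u)} ∧
        ((∀ i j : ℕ, i ≠ j → (polyMap f)^[i] u ≠ (polyMap f)^[j] u) →
          {n | V.Has (g.map^[n] x) ((polyMap f)^[n] u)}.Finite)) ∧
      (V.MissesFibre → {n | V.Has (g.map^[n] x) ((polyMap f)^[n] u)}.Finite)) ∧
    -- Theorem 3: the product with a rational function which has an exceptional point, e.g. a polynomial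
    (∀ (e : ℕ), 1 ≤ e → ∀ h : RatMap K e, ¬ h.NoExceptionalPoint → ∀ V : ClosedPP K,
      (∀ x y : Fin 2 → K, x ≠ 0 → y ≠ 0 →
        FiniteUnionOfProgressions {n | V.Has (g.map^[n] x) (h.map^[n] y)}) ∧
      (V.Proper → ∀ x y : Fin 2 → K, g.Wandering x → h.Wandering y →
        {n | V.Has (g.map^[n] x) (h.map^[n] y)}.Finite)) := by
  have hgF : Pool.Agent.Q170.HG.IsEndo d g.F := ⟨g.homogeneous, g.regular⟩
  have hE : Pool.Agent.H422.SK.NoExcept d g.F := fun u c hu h => hg u hu c h
  have hwan : ∀ {e : ℕ} (h : RatMap K e) (x : Fin 2 → K), h.Wandering x →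
      Pool.Agent.H422.SK.Wander h.F x := by
    intro e h x hx i j hij c h'
    apply hx i j hij c
    rw [map_eq h]
    exact h'
  have hWH : ∀ {M : ℕ} (V : ClosedPA K M), Pool.Agent.H422.SK.WH V.eqs := by
    intro M V F hF
    obtain ⟨p, hp⟩ := V.homogeneous F hF
    exact ⟨p, fun c x u => Pool.Agent.H422.SK.wh_smul hp c x u⟩
  refine ⟨?_, ?_, ?_⟩
  · intro x hx T hT M V
    constructor
    · intro hV
      have h1 := Pool.Agent.H422.SK.int_curve hgF hd hE (hwan g x hx) (hWH V) hV T hT
      rw [map_eq g]
      exact h1
    · rintro ⟨α, hα, hm⟩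
      have h1 := Pool.Agent.H422.SK.miss_any hgF hd hE (hwan g x hx) V.homogeneous α hα hm T hT
      rw [map_eq g]
      exact h1
  · intro x hx M f u V
    constructor
    · intro hV
      have h1 := Pool.Agent.H422.SK.curve_gen hgF hd hE f (hwan g x hx) u (hWH V) hV
      rw [map_eq g]
      exact ⟨Pool.Agent.H422.SK.EvPer.union h1.1, h1.2⟩
    · rintro ⟨α, hα, hm⟩
      obtain ⟨T, hT, hUT⟩ := Pool.Agent.H422.SK.orbit_fg f u
      have h1 := Pool.Agent.H422.SK.miss_any hgF hd hE (hwan g x hx) V.homogeneous α hα hm T hT
      rw [map_eq g]
      exact h1.subset fun n hn => ⟨_, hUT n, hn⟩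
  · intro e he h hh V
    have hhF : Pool.Agent.Q170.HG.IsEndo e h.F := ⟨h.homogeneous, h.regular⟩
    have hex : ¬ Pool.Agent.H422.SK.NoExcept e h.F := fun hn => hh fun u hu c h' => hn u c hu h'
    constructor
    · intro x y hx hy
      apply Pool.Agent.H422.SK.EvPer.union
      have h1 := Pool.Agent.H422.SK.exc_full hgF hd hE he hhF hex hx hy V.eqs V.homogeneous_fst
        V.homogeneous_snd
      rw [map_eq g, map_eq h]
      exact h1
    · rintro ⟨F, hF, hF0⟩ x y hx hy
      have h1 := Pool.Agent.H422.SK.exc_finite hgF hd hE he hhF hex (hwan g x hx) (hwan h y hy) F hF0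
        (V.homogeneous_fst F hF) (V.homogeneous_snd F hF)
      rw [map_eq g, map_eq h]
      exact h1.subset fun n hn => hn F hF

end Pool.Agent.Results.MP_295d38_ag.RationalTimesAffine
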