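import Pool.Agent.H864.RatVar

/-!
# The dynamical Mordell-Lang conjecture at very general points of rational varieties

Let `X` be a rational quasiprojective variety over `ℂ` and let `Φ : X → X` be any dominant
endomorphism. Then the dynamical Mordell-Lang conjecture holds for `Φ` at all very general points
`α` of `X` (all points outside a countable union of proper closed subsets of `X`) and for ALL closed
subvarieties `V` of `X` over `ℂ` (which may depend on `α`). Moreover there is one modulus `L` for all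
these `α` and all `V`: all return sets are unions of a finite set and of residue classes modulo `L`
(from some index on).

Proof. In suitable coordinates `Φ` is a rational self-map of affine space over a countable field `K`,
and its cone is a polynomial self-map `Ψ` of affine space. By the method of Borisov and Sapir
(`Pool.Agent.H864.BSd`) for a suitable place of `K` of residue characteristic `p` the reduction of
`Ψ` has quasi-fixed points, `Ψ(a) = a^(p^e)` coordinatewise, outside of any given hypersurface; so the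
ramification of `Ψ` is avoided by the whole orbit of `a`. A generic point of the affine space over
`K` can be mapped, by an embedding of fields over `K`, into the residue class of `a` in the algebraic
closure of `ℚ_p`. Its orbit is étale, and `p`-adic interpolation applies (for polynomial self-maps
of affine space which need not be dominant see `Pool.Agent.H864.Pad.generic_dml`).
-/

set_option autoImplicit false

namespace Pool.Agent.Results.MP_295d38_ag.RationalVarieties

open MvPolynomial Pool.Agent.H864.RV Pool.Agent.H864.Pad Pool.Agent.H864.Hom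

theorem result (m : ℕ) (X : Set (Projectivization ℂ (Fin (m + 1) → ℂ))) (_hX : QuasiProjective X)
    (hrat : IsRational X)
    (Φ : Projectivization ℂ (Fin (m + 1) → ℂ) → Projectivization ℂ (Fin (m + 1) → ℂ))
    (hΦ : Endomorphism X Φ) (hdom : Dominant X Φ) :
    ∃ H : Set (MvPolynomial (Fin (m + 1)) ℂ), H.Countable ∧
      (∀ h ∈ H, IsForm h ∧ ∃ x ∈ X, eval x.rep h ≠ 0) ∧
      ∃ L : ℕ, 0 < L ∧ ∀ α ∈ X, (∀ h ∈ H, eval α.rep h ≠ 0) →
        ∀ V : Set (Projectivization ℂ (Fin (m + 1) → ℂ)), IsClosedSet V →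
          ∃ T : Finset (ℕ × ℕ), (∀ q ∈ T, q.2 = 0 ∨ q.2 = L) ∧
            {n : ℕ | Φ^[n] α ∈ V} = {n : ℕ | ∃ q ∈ T, ∃ k : ℕ, n = q.1 + q.2 * k} := by
  classical
  obtain ⟨N, θ, δ, e, η₀, η, hδ, hθX, hdense, hη₀, hη, hη₀θ, hinv⟩ := hrat
  obtain ⟨hΦX, hreg⟩ := hΦ
  let θv : (Fin N → ℂ) → (Fin (m + 1) → ℂ) := fun t j => eval t (θ j)
  have hinf : Infinite ℂ := inferInstance
  -- vanishing on `X`
  have hvan : ∀ h, IsForm h → (∀ x ∈ X, eval x.rep h = 0) → bind₁ θ h = 0 := by
    intro h hh h0
    have h1 : δ * bind₁ θ h = 0 := by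
      apply MvPolynomial.funext
      intro t
      rw [map_mul, map_zero, eval_bind']
      by_cases ht : eval t δ = 0
      · rw [ht, zero_mul]
      · obtain ⟨hne, x, hx, hmem⟩ := hθX t ht
        rw [(eval_eq_zero_iff_of_mem hh hmem hne).2 (h0 x hx), mul_zero]
    exact (mul_eq_zero.1 h1).resolve_left hδ
  have hvan' : ∀ h, IsForm h → bind₁ θ h = 0 → ∀ x ∈ X, eval x.rep h = 0 := by
    intro h hh h0
    apply hdense h hh
    intro t
    rw [← eval_bind', h0, map_zero]
  -- a point of `X` and the forms which give `Φ` near this point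
  obtain ⟨t₁, ht₁⟩ : ∃ t, eval t δ ≠ 0 := by
    by_contra hcon
    push Not at hcon
    exact hδ (MvPolynomial.funext fun t => by rw [hcon, map_zero])
  obtain ⟨-, x₀, hx₀, -⟩ := hθX t₁ ht₁
  obtain ⟨d, e', F, g, hF, hg, hgx₀, hFg⟩ := hreg x₀ hx₀
  have hgθ : bind₁ θ g ≠ 0 := fun h0 => hgx₀ (hvan' g ⟨e', hg⟩ h0 x₀ hx₀)
  -- dominance
  have hdomθ : ∀ h, IsForm h → bind₁ θ (bind₁ F h) = 0 → bind₁ θ h = 0 := by
    intro h hh h0
    obtain ⟨dh, hdh⟩ := hh
    apply hvan h ⟨dh, hdh⟩
    apply hdom h ⟨dh, hdh⟩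
    intro y hy
    obtain ⟨d₂, e₂, F₂, g₂, hF₂, hg₂, hg₂y, hFg₂⟩ := hreg y hy
    have hF₂y := hFg₂ y hy hg₂y
    rw [← eval_eq_zero_iff_of_mem ⟨dh, hdh⟩ hF₂y.2 hF₂y.1, ← eval_bind']
    have h1 : bind₁ θ (bind₁ F₂ h * g * g₂) = 0 := by
      apply hvan
      · exact ⟨d₂ * dh + e' + e₂, ((bind_isHomogeneous F₂ d₂ dh hF₂ h hdh).mul hg).mul hg₂⟩
      · intro z hz
        rw [map_mul, map_mul]
        by_cases hz1 : eval z.rep g = 0
        · rw [hz1]; ring
        by_cases hz2 : eval z.rep g₂ = 0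
        · rw [hz2]; ring
        have hFz := hFg z hz hz1
        have hF₂z := hFg₂ z hz hz2
        have h2 : eval (Φ z).rep h = 0 := by
          rw [← eval_eq_zero_iff_of_mem ⟨dh, hdh⟩ hFz.2 hFz.1, ← eval_bind']
          exact hvan' (bind₁ F h) ⟨_, bind_isHomogeneous F d dh hF h hdh⟩ h0 z hz
        rw [← eval_eq_zero_iff_of_mem ⟨dh, hdh⟩ hF₂z.2 hF₂z.1, ← eval_bind'] at h2
        rw [h2]
        ring
    rw [map_mul, map_mul, mul_eq_zero, mul_eq_zero] at h1
    rcases h1 with (h1 | h1) | h1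
    · exact hvan' _ ⟨_, bind_isHomogeneous F₂ d₂ dh hF₂ h hdh⟩ h1 y hy
    · exact absurd h1 hgθ
    · exact absurd (hvan' g₂ ⟨e₂, hg₂⟩ h1 y hy) hg₂y
  -- the field of definition
  let cf : ∀ {τ : Type}, MvPolynomial τ ℂ → Finset ℂ := fun u => u.support.image u.coeff
  let s : Finset ℂ := (Finset.univ.biUnion fun i => cf (θ i)) ∪ (cf η₀) ∪
    (Finset.univ.biUnion fun i => cf (η i)) ∪ (Finset.univ.biUnion fun i => cf (F i)) ∪ cf g
  let K : Subfield ℂ := Subfield.closure (s : Set ℂ)
  have hcf : ∀ {τ : Type} (u : MvPolynomial τ ℂ), cf u ⊆ s → InR K u := by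
    intro τ u hu
    apply InR.of_coeff
    intro mm
    by_cases hm : mm ∈ u.support
    · apply Subfield.subset_closure
      exact hu (Finset.mem_image_of_mem _ hm)
    · rw [MvPolynomial.notMem_support_iff.1 hm]
      exact K.zero_mem
  have hθK : ∀ i, InR K (θ i) := fun i => hcf _ (by
    intro x hx
    simp only [s, Finset.mem_union]
    exact Or.inl (Or.inl (Or.inl (Or.inl (Finset.mem_biUnion.2 ⟨i, Finset.mem_univ i, hx⟩)))))
  have hη₀K : InR K η₀ := hcf _ (by
    intro x hx
    simp only [s, Finset.mem_union]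
    exact Or.inl (Or.inl (Or.inl (Or.inr hx))))
  have hηK : ∀ i, InR K (η i) := fun i => hcf _ (by
    intro x hx
    simp only [s, Finset.mem_union]
    exact Or.inl (Or.inl (Or.inr (Finset.mem_biUnion.2 ⟨i, Finset.mem_univ i, hx⟩))))
  have hFK : ∀ i, InR K (F i) := fun i => hcf _ (by
    intro x hx
    simp only [s, Finset.mem_union]
    exact Or.inl (Or.inr (Finset.mem_biUnion.2 ⟨i, Finset.mem_univ i, hx⟩)))
  have hgK : InR K g := hcf _ (by
    intro x hx
    simp only [s, Finset.mem_union]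
    exact Or.inr hx)
  have hKc : Countable K := by
    rw [← Cardinal.mk_le_aleph0_iff]
    refine (Subfield.cardinalMk_closure_le_max _).trans ?_
    simp
  -- the exceptional forms
  let H : Set (MvPolynomial (Fin (m + 1)) ℂ) := {h | IsForm h ∧ InR K h ∧ ∃ x ∈ X, eval x.rep h ≠ 0}
  have hHc : H.Countable := by
    have h1 : H ⊆ Set.range (MvPolynomial.map K.subtype : MvPolynomial (Fin (m + 1)) K →+* _) := by
      rintro h ⟨-, ⟨v, hv⟩, -⟩
      exact ⟨v, hv⟩
    refine Set.Countable.mono h1 ?_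
    have h2 : Countable (MvPolynomial (Fin (m + 1)) K) := by
      rw [← Cardinal.mk_le_aleph0_iff]
      refine MvPolynomial.cardinalMk_le_max.trans ?_
      simp only [max_le_iff]
      exact ⟨⟨Cardinal.mk_le_aleph0_iff.2 hKc, Cardinal.mk_le_aleph0⟩, le_rfl⟩
    exact Set.countable_range _
  -- the rational self-map of the affine space
  let ηo : Option (Fin N) → MvPolynomial (Fin (m + 1)) ℂ := fun o => o.elim η₀ η
  have hηo : ∀ o, (ηo o).IsHomogeneous e := by
    intro o
    cases o with
    | none => exact hη₀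
    | some j => exact hη j
  have hηoK : ∀ o, InR K (ηo o) := by
    intro o
    cases o with
    | none => exact hη₀K
    | some j => exact hηK j
  have hηoθ : ∀ t, (fun o => eval (θv t) (ηo o)) =
      fun o : Option (Fin N) => o.elim (eval (θv t) η₀) fun j => eval (θv t) η₀ * t j := by
    intro t
    funext o
    cases o with
    | none => rfl
    | some j =>
      show eval (θv t) (η j) = _
      rw [hinv t j, mul_comm]
      rfl
  let a : Option (Fin N) → MvPolynomial (Fin N) ℂ := fun o => bind₁ θ (bind₁ F (ηo o))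
  have haK : ∀ o, InR K (a o) := fun o => (InR.bind hθK (InR.bind hFK (hηoK o)))
  have hη₀bind : bind₁ θ η₀ ≠ 0 := by
    obtain ⟨t, ht⟩ := hη₀θ
    intro h0
    apply ht
    rw [← eval_bind', h0, map_zero]
  have ha_none : a none ≠ 0 := fun h0 => hη₀bind (hdomθ η₀ ⟨e, hη₀⟩ h0)
  -- the form attached to a polynomial in the parameters
  let fm : MvPolynomial (Fin N) ℂ → MvPolynomial (Fin (m + 1)) ℂ := fun b =>
    bind₁ ηo (homg b.totalDegree b)
  have hfm : ∀ b, IsForm (fm b) := fun b =>
    ⟨_, bind_isHomogeneous ηo e _ hηo _ (homg_isHomogeneous _ b le_rfl)⟩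
  have hfmK : ∀ b, InR K b → InR K (fm b) := fun b hb => InR.bind hηoK (hb.homg _)
  have hfmθ : ∀ b, bind₁ θ (fm b) = (bind₁ θ η₀) ^ b.totalDegree * b := by
    intro b
    apply MvPolynomial.funext
    intro t
    rw [eval_bind', eval_bind', map_mul, map_pow, eval_bind']
    show eval (fun o => eval (θv t) (ηo o)) _ = _
    rw [hηoθ, eval_homg _ b le_rfl]
  have hgen_next : ∀ t : Fin N → ℂ, AlgebraicIndependent K t →
      AlgebraicIndependent K (rmap a t) := by
    intro t ht
    rw [algebraicIndependent_iff]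
    intro b hb
    set b' := MvPolynomial.map K.subtype b with hb'
    have hbK : InR K b' := ⟨b, rfl⟩
    have hb0 : eval (rmap a t) b' = 0 := by
      rw [hb', eval_map]
      exact hb
    have hat : eval t (a none) ≠ 0 := fun h0 => ha_none ((haK none).eq_zero ht h0)
    have h1 : eval t (bind₁ θ (bind₁ F (fm b'))) = 0 := by
      rw [eval_bind', eval_bind', eval_bind']
      have h2 : (fun o => eval (fun i => eval (fun i => eval t (θ i)) (F i)) (ηo o)) =
          fun o : Option (Fin N) => o.elim (eval t (a none)) fun j => eval t (a none) * rmap a t j := by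
        funext o
        have h3 : eval (fun i => eval (fun i => eval t (θ i)) (F i)) (ηo o) = eval t (a o) := by
          show _ = eval t (bind₁ θ (bind₁ F (ηo o)))
          rw [eval_bind', eval_bind']
        rw [h3]
        cases o with
        | none => rfl
        | some j =>
          show eval t (a (some j)) = eval t (a none) * (eval t (a (some j)) / eval t (a none))
          field_simp
      rw [h2, eval_homg _ b' le_rfl, hb0, mul_zero]
    have h2 := (InR.bind hθK (InR.bind hFK (hfmK b' hbK))).eq_zero ht h1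
    have h3 := hdomθ _ (hfm b') h2
    rw [hfmθ, mul_eq_zero] at h3
    have h4 : b' = 0 := h3.resolve_left (pow_ne_zero _ hη₀bind)
    exact map_injective _ Subtype.val_injective (by rw [map_zero]; exact h4)
  obtain ⟨L, hL, hmain⟩ := rational_generic_dml K hKc a (fun o mm => (haK o).coeff mm)
    (fun t ht h0 => ha_none ((haK none).eq_zero ht h0)) hgen_next
  refine ⟨H, hHc, fun h hh => ⟨hh.1, hh.2.2⟩, L, hL, fun α hα hαH V hV => ?_⟩
  have hη₀H : η₀ ∈ H := by
    refine ⟨⟨e, hη₀⟩, hη₀K, ?_⟩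
    by_contra hcon
    push Not at hcon
    exact hη₀bind (hvan η₀ ⟨e, hη₀⟩ hcon)
  have hgH : g ∈ H := ⟨⟨e', hg⟩, hgK, x₀, hx₀, hgx₀⟩
  have hHF : ∀ h ∈ H, bind₁ F h ∈ H := by
    rintro h ⟨⟨dh, hdh⟩, hhK, hhX⟩
    refine ⟨⟨_, bind_isHomogeneous F d dh hF h hdh⟩, InR.bind hFK hhK, ?_⟩
    by_contra hcon
    push Not at hcon
    have h1 := hdomθ h ⟨dh, hdh⟩ (hvan _ ⟨_, bind_isHomogeneous F d dh hF h hdh⟩ hcon)
    obtain ⟨x, hx, hxh⟩ := hhX
    exact hxh (hvan' h ⟨dh, hdh⟩ h1 x hx)
  -- the parameters of a point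
  let tt : Projectivization ℂ (Fin (m + 1) → ℂ) → Fin N → ℂ := fun x j =>
    eval x.rep (η j) / eval x.rep η₀
  have hηox : ∀ x, eval x.rep η₀ ≠ 0 → (fun o => eval x.rep (ηo o)) =
      fun o : Option (Fin N) => o.elim (eval x.rep η₀) fun j => eval x.rep η₀ * tt x j := by
    intro x hx
    funext o
    cases o with
    | none => rfl
    | some j =>
      show eval x.rep (η j) = eval x.rep η₀ * (eval x.rep (η j) / eval x.rep η₀)
      field_simp
  have hG1 : ∀ x ∈ X, (∀ h ∈ H, eval x.rep h ≠ 0) → AlgebraicIndependent K (tt x) := by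
    intro x hx hxH
    rw [algebraicIndependent_iff]
    intro b hb
    by_contra hne
    set b' := MvPolynomial.map K.subtype b with hb'
    have hbK : InR K b' := ⟨b, rfl⟩
    have hb'0 : b' ≠ 0 := by
      intro h0
      exact hne (map_injective _ Subtype.val_injective (by rw [map_zero]; exact h0))
    have hbH : fm b' ∈ H := by
      refine ⟨hfm b', hfmK b' hbK, ?_⟩
      by_contra hcon
      push Not at hcon
      have h1 := hvan _ (hfm b') hcon
      rw [hfmθ, mul_eq_zero] at h1
      exact hb'0 (h1.resolve_left (pow_ne_zero _ hη₀bind))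
    apply hxH _ hbH
    show eval x.rep (bind₁ ηo (homg b'.totalDegree b')) = 0
    rw [eval_bind', hηox x (hxH _ hη₀H), eval_homg _ b' le_rfl]
    have hb0 : eval (tt x) b' = 0 := by
      rw [hb', eval_map]
      exact hb
    rw [hb0, mul_zero]
  have hθne : ∃ i, θ i ≠ 0 := by
    by_contra hcon
    push Not at hcon
    apply (hθX t₁ ht₁).1
    funext j
    rw [hcon j]
    simp
  have hG2 : ∀ x ∈ X, (∀ h ∈ H, eval x.rep h ≠ 0) → ∃ c : ℂ, c ≠ 0 ∧
      θv (tt x) = fun i => c * x.rep i := by
    intro x hx hxH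
    have hgen := hG1 x hx hxH
    obtain ⟨i₀, hi₀⟩ := hθne
    have hθt : eval (tt x) (θ i₀) ≠ 0 := fun h0 => hi₀ ((hθK i₀).eq_zero hgen h0)
    have hx0 := hxH _ hη₀H
    -- the relation
    set D := Finset.univ.sup fun i => (θ i).totalDegree with hD
    have hDi : ∀ i, (θ i).totalDegree ≤ D := fun i =>
      Finset.le_sup (f := fun i => (θ i).totalDegree) (Finset.mem_univ i)
    let Θ : Fin (m + 1) → MvPolynomial (Fin (m + 1)) ℂ := fun j => bind₁ ηo (homg D (θ j))
    have hΘ : ∀ j, (Θ j).IsHomogeneous (e * D) := fun j =>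
      bind_isHomogeneous ηo e _ hηo _ (homg_isHomogeneous _ _ (hDi j))
    have hrel : ∀ i j, x.rep i * eval (tt x) (θ j) = x.rep j * eval (tt x) (θ i) := by
      intro i j
      have h1 : eval x.rep (MvPolynomial.X i * Θ j - MvPolynomial.X j * Θ i) = 0 := by
        apply hvan' _ ⟨1 + e * D, ((isHomogeneous_X ℂ i).mul (hΘ j)).sub
          ((isHomogeneous_X ℂ j).mul (hΘ i))⟩ _ x hx
        apply MvPolynomial.funext
        intro t
        rw [eval_bind', map_sub, map_mul, map_mul, eval_X, eval_X, map_zero]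
        have h2 : ∀ j, eval (θv t) (Θ j) = eval (θv t) η₀ ^ D * eval t (θ j) := by
          intro j
          show eval (θv t) (bind₁ ηo (homg D (θ j))) = _
          rw [eval_bind', hηoθ, eval_homg _ _ (hDi j)]
        have h3 := h2 i
        have h4 := h2 j
        simp only [θv] at h3 h4
        rw [h3, h4]
        ring
      rw [map_sub, map_mul, map_mul, eval_X, eval_X] at h1
      have h2 : ∀ j, eval x.rep (Θ j) = eval x.rep η₀ ^ D * eval (tt x) (θ j) := by
        intro j
        show eval x.rep (bind₁ ηo (homg D (θ j))) = _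
        rw [eval_bind', hηox x hx0, eval_homg _ _ (hDi j)]
      rw [h2, h2] at h1
      have h3 : eval x.rep η₀ ^ D * (x.rep i * eval (tt x) (θ j) - x.rep j * eval (tt x) (θ i)) = 0 := by
        linear_combination h1
      have h4 := (mul_eq_zero.1 h3).resolve_left (pow_ne_zero _ hx0)
      exact sub_eq_zero.1 h4
    obtain ⟨j₀, hj₀⟩ : ∃ j, x.rep j ≠ 0 := by
      by_contra hcon
      push Not at hcon
      exact x.rep_nonzero (funext hcon)
    refine ⟨eval (tt x) (θ j₀) / x.rep j₀, ?_, ?_⟩
    · apply div_ne_zero _ hj₀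
      intro h0
      have h1 := hrel j₀ i₀
      rw [h0, mul_zero, mul_eq_zero] at h1
      rcases h1 with h1 | h1
      · exact hj₀ h1
      · exact hθt h1
    · funext i
      have h1 := hrel i j₀
      show eval (tt x) (θ i) = _
      field_simp
      linear_combination -h1
  have hG3 : ∀ x ∈ X, (∀ h ∈ H, eval x.rep h ≠ 0) → ∀ h ∈ H, eval (Φ x).rep h ≠ 0 := by
    intro x hx hxH h hh h0
    have hFx := hFg x hx (hxH g hgH)
    rw [← eval_eq_zero_iff_of_mem hh.1 hFx.2 hFx.1, ← eval_bind'] at h0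
    exact hxH _ (hHF h hh) h0
  have hG4 : ∀ x ∈ X, (∀ h ∈ H, eval x.rep h ≠ 0) → tt (Φ x) = rmap a (tt x) := by
    intro x hx hxH
    obtain ⟨c, hc, hcx⟩ := hG2 x hx hxH
    have hFx := hFg x hx (hxH g hgH)
    obtain ⟨c', hc', -⟩ := eval_of_mem hη₀ hFx.2
    have hc'0 : c' ≠ 0 := by
      rintro rfl
      apply hFx.1
      rw [hc']
      funext i
      simp
    have hFθ : (fun i => eval (θv (tt x)) (F i)) = fun i => (c ^ d * c') * (Φ x).rep i := by
      funext i
      rw [hcx]
      have h1 := Pool.Agent.H936R2.eval_scale (F i) d (hF i) c x.rep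
      rw [h1, congrFun hc' i]
      ring
    have haval : ∀ o, eval (tt x) (a o) = (c ^ d * c') ^ e * eval (Φ x).rep (ηo o) := by
      intro o
      show eval (tt x) (bind₁ θ (bind₁ F (ηo o))) = _
      rw [eval_bind', eval_bind']
      show eval (fun i => eval (θv (tt x)) (F i)) (ηo o) = _
      rw [hFθ]
      exact Pool.Agent.H936R2.eval_scale (ηo o) e (hηo o) _ _
    funext j
    show eval (Φ x).rep (η j) / eval (Φ x).rep η₀ = eval (tt x) (a (some j)) / eval (tt x) (a none)
    rw [haval, haval]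
    have h2 : (c ^ d * c') ^ e ≠ 0 := pow_ne_zero _ (mul_ne_zero (pow_ne_zero _ hc) hc'0)
    show _ = (c ^ d * c') ^ e * eval (Φ x).rep (η j) / ((c ^ d * c') ^ e * eval (Φ x).rep η₀)
    rw [mul_div_mul_left _ _ h2]
  -- the orbit
  have horb : ∀ n, Φ^[n] α ∈ X ∧ (∀ h ∈ H, eval (Φ^[n] α).rep h ≠ 0) ∧
      tt (Φ^[n] α) = (rmap a)^[n] (tt α) := by
    intro n
    induction n with
    | zero => exact ⟨hα, hαH, rfl⟩
    | succ n ih =>
      obtain ⟨h1, h2, h3⟩ := ih
      simp only [Function.iterate_succ_apply']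
      exact ⟨hΦX _ h1, hG3 _ h1 h2, by rw [hG4 _ h1 h2, h3]⟩
  obtain ⟨C, hC, hCV⟩ := hV
  obtain ⟨T, hT, hT2⟩ := hmain (tt α) (hG1 α hα hαH) {u | ∃ G ∈ C, u = bind₁ θ G}
  refine ⟨T, hT, ?_⟩
  rw [← hT2]
  ext n
  obtain ⟨h1, h2, h3⟩ := horb n
  obtain ⟨c, hc, hcx⟩ := hG2 _ h1 h2
  have hmem : θv (tt (Φ^[n] α)) ∈ (Φ^[n] α).submodule := by
    rw [Projectivization.submodule_eq, Submodule.mem_span_singleton]
    exact ⟨c, by rw [hcx]; rfl⟩
  have hne : θv (tt (Φ^[n] α)) ≠ 0 := by
    rw [hcx]
    intro h0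
    obtain ⟨j₀, hj₀⟩ : ∃ j, (Φ^[n] α).rep j ≠ 0 := by
      by_contra hcon
      push Not at hcon
      exact (Φ^[n] α).rep_nonzero (funext hcon)
    have := congrFun h0 j₀
    simp only [Pi.zero_apply, mul_eq_zero] at this
    rcases this with h | h
    · exact hc h
    · exact hj₀ h
  have key : ∀ G ∈ C, (eval (Φ^[n] α).rep G = 0 ↔ eval ((rmap a)^[n] (tt α)) (bind₁ θ G) = 0) := by
    intro G hG
    rw [eval_bind', ← h3]
    exact (eval_eq_zero_iff_of_mem (hC G hG) hmem hne).symm
  simp only [Set.mem_ofPred_eq, hCV]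
  constructor
  · rintro h _ ⟨G, hG, rfl⟩
    exact (key G hG).1 (h G hG)
  · intro h G hG
    exact (key G hG).2 (h _ ⟨G, hG, rfl⟩)

end Pool.Agent.Results.MP_295d38_ag.RationalVarieties
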