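import Pool.Agent.H864.MultEmb
import Pool.Agent.H864.Skew

/-!
# The dynamical Mordell-Lang conjecture for skew products over endomorphisms of tori

Let `g(x) = γ x ^ M` be a finite endomorphism (as a variety) of the torus `T = (ℂˣ)^r`, where `M` is
an integral matrix with `det M ≠ 0` and `γ ∈ T`. We consider the endomorphisms
`Φ(x, y) = (g(x), F(x, y))` of `T × 𝔸^m` such that the Jacobian determinant of the fibre maps
`y ↦ F(x, y)` depends only on `x`, and is a product of a monomial and of finitely many factors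
`χ_s(x) - a_s`, where the `χ_s` are characters of the torus. So `Φ` is ramified along the fibres over
the translated subtori `χ_s(x) = a_s`, for example it may contract them.

Let `x₀` be a point of `T` and let `Γ` be the group generated by the coordinates of `g(x₀) / x₀`. The
theorem is the full dynamical Mordell-Lang property, for all `y₀` and all subvarieties `V` over `ℂ`,
if no power of `a_s / χ_s(x₀)` belongs to `Γ` (and if `Γ` and `a_s / χ_s(x₀)` are algebraic numbers;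
`x₀`, `y₀`, `F` and `V` are arbitrary).

For `r = 1` and `g(x) = q x` these are (nonlinear) `q`-difference equations, and `Γ = ⟨q⟩`: the
condition is that `a_s / x₀` and `q` are multiplicatively independent, up to roots of unity. For
`F(x, y) = A(x) y` this contains the theorem of Skolem-Mahler-Lech for `q`-holonomic sequences whose
singularities satisfy this condition. For `g(x) = x ^ d` the base is the map which belongs to Mahler
equations.

Proof. Let `ℓ` be a large prime. By Kummer theory there is an element `σ` of the Galois group of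
`ℚ̄ / ℚ` which fixes the `ℓ`-th roots of unity and the `ℓ`-th roots of the elements of `Γ`, and which
moves all the `ℓ`-th roots of the `b_s = a_s / χ_s(x₀)`. By the theorem of Chebotarev `σ` is a
Frobenius element for infinitely many primes `p`; modulo a place above such a prime `p` the elements of
`Γ` are `ℓ`-th powers in `𝔽_p`, and the elements `b_s` are not. So the orbit does not meet the
ramification of `Φ` modulo this place, and the `p`-adic interpolation of étale orbits applies.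
-/

set_option autoImplicit false

namespace Pool.Agent.Results.MP_295d38_ag.TorusSkewProducts

open MvPolynomial Pool.Agent.H936R2 Pool.Agent.H864.Skew Pool.Agent.H864.Pad Pool.Agent.H864.Kum

/-- The coordinates `(x, x⁻¹, y)` of the point `(x, y)` of the variety `(ℂˣ)^r × ℂ^m`. -/
def coord {r m : ℕ} (z : (Fin r → ℂˣ) × (Fin m → ℂ)) : (Fin r ⊕ Fin r) ⊕ Fin m → ℂ :=
  Sum.elim (Sum.elim (fun i => ((z.1 i : ℂˣ) : ℂ)) (fun i => (((z.1 i)⁻¹ : ℂˣ) : ℂ))) z.2

/-- The endomorphism `x ↦ γ x ^ M` of the torus. -/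
def torusMap {r : ℕ} (γ : Fin r → ℂˣ) (M : Matrix (Fin r) (Fin r) ℤ) (x : Fin r → ℂˣ) :
    Fin r → ℂˣ := fun i => γ i * ∏ j, x j ^ M i j

/-- The endomorphism `(x, y) ↦ (γ x ^ M, F(x, y))`. -/
noncomputable def skewMap {r m : ℕ} (γ : Fin r → ℂˣ) (M : Matrix (Fin r) (Fin r) ℤ)
    (F : Fin m → MvPolynomial ((Fin r ⊕ Fin r) ⊕ Fin m) ℂ) (z : (Fin r → ℂˣ) × (Fin m → ℂ)) :
    (Fin r → ℂˣ) × (Fin m → ℂ) :=
  (torusMap γ M z.1, fun i => eval (coord z) (F i))

lemma closure_range_mem {r : ℕ} (u : Fin r → ℂˣ) (g : ℂˣ)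
    (hg : g ∈ Subgroup.closure (Set.range u)) : ∃ v : Fin r → ℤ, g = ∏ j, u j ^ v j := by
  classical
  induction hg using Subgroup.closure_induction with
  | mem x hx =>
    obtain ⟨j, rfl⟩ := hx
    refine ⟨Pi.single j 1, ?_⟩
    rw [Finset.prod_eq_single j]
    · simp
    · intro i _ hij
      simp [Pi.single_eq_of_ne hij]
    · simp
  | one => exact ⟨0, by simp⟩
  | mul x y _ _ hx hy =>
    obtain ⟨v, rfl⟩ := hx
    obtain ⟨w, rfl⟩ := hy
    exact ⟨v + w, by simp [zpow_add, Finset.prod_mul_distrib]⟩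
  | inv x _ hx =>
    obtain ⟨v, rfl⟩ := hx
    exact ⟨-v, by simp [zpow_neg]⟩

theorem result (r m e : ℕ) (γ : Fin r → ℂˣ) (M : Matrix (Fin r) (Fin r) ℤ) (hM : M.det ≠ 0)
    (F : Fin m → MvPolynomial ((Fin r ⊕ Fin r) ⊕ Fin m) ℂ)
    (c : ℂˣ) (k : Fin r → ℤ) (χ : Fin e → Fin r → ℤ) (a : Fin e → ℂˣ)
    (hjac : ∀ z : (Fin r → ℂˣ) × (Fin m → ℂ),
      (Matrix.of fun i j => eval (coord z) (pderiv (Sum.inr j) (F i))).det =
        ((c * ∏ j, z.1 j ^ k j : ℂˣ) : ℂ) * ∏ s, (((∏ j, z.1 j ^ χ s j : ℂˣ) : ℂ) - a s))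
    (x₀ : Fin r → ℂˣ) (y₀ : Fin m → ℂ)
    (hΓ : ∀ j, IsAlgebraic ℚ (((torusMap γ M x₀ j / x₀ j : ℂˣ)) : ℂ))
    (ha : ∀ s, IsAlgebraic ℚ (((a s / ∏ j, x₀ j ^ χ s j : ℂˣ)) : ℂ))
    (hind : ∀ s, ∀ n : ℕ, 0 < n → (a s / ∏ j, x₀ j ^ χ s j) ^ n ∉
      Subgroup.closure (Set.range fun j => torusMap γ M x₀ j / x₀ j)) :
    ∃ L : ℕ, 0 < L ∧ ∀ V : Set (MvPolynomial ((Fin r ⊕ Fin r) ⊕ Fin m) ℂ),
      ∃ T : Finset (ℕ × ℕ), (∀ q ∈ T, q.2 = 0 ∨ q.2 = L) ∧
        {n : ℕ | ∀ g ∈ V, eval (coord ((skewMap γ M F)^[n] (x₀, y₀))) g = 0} =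
          {n : ℕ | ∃ q ∈ T, ∃ k : ℕ, n = q.1 + q.2 * k} := by
  classical
  set u : Fin r → ℂˣ := fun j => torusMap γ M x₀ j / x₀ j with hu
  set Γ := Subgroup.closure (Set.range u) with hΓdef
  set b : Fin e → ℂˣ := fun s => a s / ∏ j, x₀ j ^ χ s j with hb
  -- the orbit
  let z : ℕ → (Fin r → ℂˣ) × (Fin m → ℂ) := fun n => (skewMap γ M F)^[n] (x₀, y₀)
  have hz0 : z 0 = (x₀, y₀) := rfl
  have hzs : ∀ n, z (n + 1) = skewMap γ M F (z n) := fun n => Function.iterate_succ_apply' _ _ _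
  have hx1 : ∀ n, (z (n + 1)).1 = torusMap γ M (z n).1 := fun n => by rw [hzs]; rfl
  have hratio : ∀ n j, (z (n + 1)).1 j / (z n).1 j ∈ Γ := by
    intro n
    induction n with
    | zero =>
      intro j
      rw [hx1]
      exact Subgroup.subset_closure ⟨j, rfl⟩
    | succ n ih =>
      intro j
      rw [hx1 (n + 1)]
      have h1 : torusMap γ M (z (n + 1)).1 j / (z (n + 1)).1 j =
          ∏ i, ((z (n + 1)).1 i / (z n).1 i) ^ M j i := by
        conv_lhs => rw [hx1 n]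
        rw [← hx1 n]
        have h2 : (z (n + 1)).1 j = torusMap γ M (z n).1 j := by rw [hx1]
        rw [h2]
        unfold torusMap
        rw [mul_div_mul_left_eq_div, ← Finset.prod_div_distrib]
        apply Finset.prod_congr rfl
        intro i _
        rw [div_zpow, hx1 n]
      rw [h1]
      exact Subgroup.prod_mem _ fun i _ => Subgroup.zpow_mem _ (ih i) _
  have hcoset : ∀ n j, (z n).1 j / x₀ j ∈ Γ := by
    intro n
    induction n with
    | zero =>
      intro j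
      rw [hz0, div_self']
      exact Subgroup.one_mem _
    | succ n ih =>
      intro j
      have h1 : (z (n + 1)).1 j / x₀ j = ((z (n + 1)).1 j / (z n).1 j) * ((z n).1 j / x₀ j) := by
        rw [div_mul_div_cancel]
      rw [h1]
      exact Subgroup.mul_mem _ (hratio n j) (ih j)
  have hchar : ∀ n s, ∃ v : Fin r → ℤ, (∏ j, (z n).1 j ^ χ s j : ℂˣ) =
      (∏ j, x₀ j ^ χ s j) * ∏ j, u j ^ v j := by
    intro n s
    have h1 : (∏ j, ((z n).1 j / x₀ j) ^ χ s j) ∈ Γ :=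
      Subgroup.prod_mem _ fun i _ => Subgroup.zpow_mem _ (hcoset n i) _
    obtain ⟨v, hv⟩ := closure_range_mem u _ h1
    refine ⟨v, ?_⟩
    rw [← hv, ← Finset.prod_mul_distrib]
    apply Finset.prod_congr rfl
    intro j _
    rw [div_zpow, mul_div_cancel]
  -- the polynomial self-map of the affine space
  obtain ⟨E, hE1, hE2, hE3, hEdet⟩ := exists_nonneg M hM
  let gg : Fin r ⊕ Fin r → ℂ := Sum.elim (fun i => ((γ i : ℂˣ) : ℂ)) fun i => (((γ i)⁻¹ : ℂˣ) : ℂ)
  let Ψ : (Fin r ⊕ Fin r) ⊕ Fin m → MvPolynomial ((Fin r ⊕ Fin r) ⊕ Fin m) ℂ :=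
    skewP (monoP gg E) F
  let xx : (Fin r → ℂˣ) → Fin r ⊕ Fin r → ℂ := fun x =>
    Sum.elim (fun i => ((x i : ℂˣ) : ℂ)) fun i => (((x i)⁻¹ : ℂˣ) : ℂ)
  have hxx0 : ∀ x o, xx x o ≠ 0 := by
    intro x o
    rcases o with i | i
    · exact (x i).ne_zero
    · exact ((x i)⁻¹).ne_zero
  have hmono : ∀ x, pt (monoP gg E) (xx x) = xx (torusMap γ M x) := by
    intro x
    have hprod : ∀ (p₁ p₂ : Fin r → ℕ), ∏ o, xx x o ^ (Sum.elim p₁ p₂ o) =
        ((∏ j, x j ^ ((p₁ j : ℤ) - p₂ j) : ℂˣ) : ℂ) := by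
      intro p₁ p₂
      rw [Fintype.prod_sum_type, ← Finset.prod_mul_distrib, Units.coe_prod]
      apply Finset.prod_congr rfl
      intro j _
      rw [zpow_sub, zpow_natCast, zpow_natCast, ← inv_pow]
      push_cast
      simp only [xx, Sum.elim_inl, Sum.elim_inr]
      push_cast
      rfl
    funext o
    rcases o with i | i
    · show eval (xx x) (monoP gg E (Sum.inl i)) = ((torusMap γ M x i : ℂˣ) : ℂ)
      rw [eval_monoP]
      have h1 : ∏ o, xx x o ^ E (Sum.inl i) o = ((∏ j, x j ^ M i j : ℂˣ) : ℂ) := by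
        have h2 := hprod (fun j => E (Sum.inl i) (Sum.inl j)) (fun j => E (Sum.inl i) (Sum.inr j))
        simp only [hE1] at h2
        rw [← h2]
        apply Finset.prod_congr rfl
        intro o _
        rcases o with j | j <;> rfl
      rw [h1]
      show ((γ i : ℂˣ) : ℂ) * _ = _
      rw [← Units.val_mul]
      rfl
    · show eval (xx x) (monoP gg E (Sum.inr i)) = (((torusMap γ M x i)⁻¹ : ℂˣ) : ℂ)
      rw [eval_monoP]
      have h1 : ∏ o, xx x o ^ E (Sum.inr i) o = (((∏ j, x j ^ M i j)⁻¹ : ℂˣ) : ℂ) := by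
        have h2 := hprod (fun j => E (Sum.inl i) (Sum.inr j)) (fun j => E (Sum.inl i) (Sum.inl j))
        have h3 : ∀ j, ((E (Sum.inl i) (Sum.inr j) : ℕ) : ℤ) - (E (Sum.inl i) (Sum.inl j) : ℕ) =
            -M i j := by
          intro j
          rw [← hE1 i j]
          ring
        simp only [h3, zpow_neg, Finset.prod_inv_distrib] at h2
        rw [← h2]
        apply Finset.prod_congr rfl
        intro o _
        rcases o with j | j
        · rw [hE3]
          rfl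
        · rw [hE2]
          rfl
      rw [h1]
      show (((γ i)⁻¹ : ℂˣ) : ℂ) * _ = _
      rw [← Units.val_mul, ← mul_inv]
      rfl
  have hcoord : ∀ w : (Fin r → ℂˣ) × (Fin m → ℂ), coord w = Sum.elim (xx w.1) w.2 := fun w => rfl
  have hiter : ∀ n, (pt Ψ)^[n] (coord (x₀, y₀)) = coord (z n) := by
    intro n
    induction n with
    | zero => rfl
    | succ n ih =>
      rw [Function.iterate_succ_apply', ih, hcoord, pt_skewP, hmono, hzs]
      rfl
  -- the determinant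
  have hdet : ∀ n, (jac Ψ ((pt Ψ)^[n] (coord (x₀, y₀)))).det =
      (E.map (Nat.cast : ℕ → ℂ)).det * (((c * ∏ j, (z n).1 j ^ k j : ℂˣ) : ℂ) *
        ∏ s, (((∏ j, (z n).1 j ^ χ s j : ℂˣ) : ℂ) - a s)) := by
    intro n
    rw [hiter, hcoord, det_jac_skewP, det_jac_monoP gg E (xx (z n).1) (hxx0 _)]
    have h1 : ∏ o, (gg o * ∏ o', xx (z n).1 o' ^ E o o') = 1 := by
      have h2 : ∀ o, gg o * ∏ o', xx (z n).1 o' ^ E o o' = xx (torusMap γ M (z n).1) o := by
        intro o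
        rw [← hmono, ← eval_monoP]
        rfl
      simp only [h2]
      rw [Fintype.prod_sum_type, ← Finset.prod_mul_distrib]
      apply Finset.prod_eq_one
      intro j _
      show ((torusMap γ M (z n).1 j : ℂˣ) : ℂ) * (((torusMap γ M (z n).1 j)⁻¹ : ℂˣ) : ℂ) = 1
      rw [← Units.val_mul, mul_inv_cancel, Units.val_one]
    have h2 : ∏ o, (xx (z n).1 o)⁻¹ = 1 := by
      rw [Finset.prod_inv_distrib, Fintype.prod_sum_type, ← Finset.prod_mul_distrib,
        inv_eq_one]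
      apply Finset.prod_eq_one
      intro j _
      show (((z n).1 j : ℂˣ) : ℂ) * ((((z n).1 j)⁻¹ : ℂˣ) : ℂ) = 1
      rw [← Units.val_mul, mul_inv_cancel, Units.val_one]
    rw [h1, h2, one_mul, mul_one]
    congr 1
    exact hjac (z n)
  -- the embedding
  let cf : MvPolynomial ((Fin r ⊕ Fin r) ⊕ Fin m) ℂ → Finset ℂ := fun f => f.support.image f.coeff
  let s : Finset ℂ := (Finset.univ.biUnion fun i => cf (F i)) ∪ Finset.univ.image y₀ ∪
    (Finset.univ.image fun i => ((x₀ i : ℂˣ) : ℂ)) ∪ (Finset.univ.image fun i => (((x₀ i)⁻¹ : ℂˣ) : ℂ)) ∪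
    (Finset.univ.image fun i => ((γ i : ℂˣ) : ℂ)) ∪ (Finset.univ.image fun i => (((γ i)⁻¹ : ℂˣ) : ℂ)) ∪
    {((c : ℂˣ) : ℂ), ((c⁻¹ : ℂˣ) : ℂ), (E.map (Nat.cast : ℕ → ℂ)).det,
      ((E.map (Nat.cast : ℕ → ℂ)).det)⁻¹}
  obtain ⟨p, hp, -, τ, hτs, hτu, hτb, hτ⟩ := exists_mult_embedding
    (fun j => ((u j : ℂˣ) : ℂ)) (fun i => ((b i : ℂˣ) : ℂ)) (fun j => (u j).ne_zero)
    (fun i => (b i).ne_zero) hΓ ha (by
      intro i n hn v h
      apply hind i n hn
      have h1 : (b i) ^ n = ∏ j, u j ^ v j := by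
        apply Units.ext
        rw [Units.val_pow_eq_pow_val, Units.coe_prod, h]
        apply Finset.prod_congr rfl
        intro j _
        rw [Units.val_zpow_eq_zpow_val]
      show (b i) ^ n ∈ Γ
      rw [h1]
      exact Subgroup.prod_mem _ fun j _ =>
        Subgroup.zpow_mem _ (Subgroup.subset_closure (Set.mem_range_self j)) _)
    s 0
  have hτF : ∀ i, ∀ mm, ‖τ ((F i).coeff mm)‖ ≤ 1 := by
    intro i mm
    by_cases hm : mm ∈ (F i).support
    · apply hτs
      simp only [s, Finset.mem_union]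
      exact Or.inl (Or.inl (Or.inl (Or.inl (Or.inl (Or.inl (Finset.mem_biUnion.2
        ⟨i, Finset.mem_univ i, Finset.mem_image_of_mem _ hm⟩))))))
    · rw [MvPolynomial.notMem_support_iff.1 hm, map_zero, norm_zero]
      exact zero_le_one
  have hτy : ∀ i, ‖τ (y₀ i)‖ ≤ 1 := fun i => hτs _ (by
    simp only [s, Finset.mem_union]
    exact Or.inl (Or.inl (Or.inl (Or.inl (Or.inl (Or.inr (Finset.mem_image_of_mem _ (Finset.mem_univ i))))))))
  have hτx : ∀ i, ‖τ ((x₀ i : ℂˣ) : ℂ)‖ ≤ 1 := fun i => hτs _ (by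
    simp only [s, Finset.mem_union]
    exact Or.inl (Or.inl (Or.inl (Or.inl (Or.inr (Finset.mem_image.2 ⟨i, Finset.mem_univ i, rfl⟩))))))
  have hτx' : ∀ i, ‖τ (((x₀ i)⁻¹ : ℂˣ) : ℂ)‖ ≤ 1 := fun i => hτs _ (by
    simp only [s, Finset.mem_union]
    exact Or.inl (Or.inl (Or.inl (Or.inr (Finset.mem_image.2 ⟨i, Finset.mem_univ i, rfl⟩)))))
  have hτγ : ∀ i, ‖τ ((γ i : ℂˣ) : ℂ)‖ ≤ 1 := fun i => hτs _ (by
    simp only [s, Finset.mem_union]
    exact Or.inl (Or.inl (Or.inr (Finset.mem_image.2 ⟨i, Finset.mem_univ i, rfl⟩))))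
  have hτγ' : ∀ i, ‖τ (((γ i)⁻¹ : ℂˣ) : ℂ)‖ ≤ 1 := fun i => hτs _ (by
    simp only [s, Finset.mem_union]
    exact Or.inl (Or.inr (Finset.mem_image.2 ⟨i, Finset.mem_univ i, rfl⟩)))
  have hunit : ∀ w : ℂˣ, ‖τ (w : ℂ)‖ ≤ 1 → ‖τ ((w⁻¹ : ℂˣ) : ℂ)‖ ≤ 1 → ‖τ (w : ℂ)‖ = 1 := by
    intro w h1 h2
    apply norm_eq_one_of_inv τ w.ne_zero h1
    rw [← Units.val_inv_eq_inv_val]
    exact h2
  have nx : ∀ i, ‖τ ((x₀ i : ℂˣ) : ℂ)‖ = 1 := fun i => hunit _ (hτx i) (hτx' i)
  have nc : ‖τ ((c : ℂˣ) : ℂ)‖ = 1 := hunit _ (hτs _ (by simp [s])) (hτs _ (by simp [s]))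
  have nE : ‖τ (E.map (Nat.cast : ℕ → ℂ)).det‖ = 1 :=
    norm_eq_one_of_inv τ hEdet (hτs _ (by simp [s])) (hτs _ (by simp [s]))
  have nprod : ∀ (w : Fin r → ℂˣ), (∀ i, ‖τ ((w i : ℂˣ) : ℂ)‖ = 1) → ∀ v : Fin r → ℤ,
      ‖τ ((∏ j, w j ^ v j : ℂˣ) : ℂ)‖ = 1 := by
    intro w hw v
    rw [Units.coe_prod, map_prod, norm_prod]
    apply Finset.prod_eq_one
    intro j _
    rw [Units.val_zpow_eq_zpow_val, map_zpow₀, norm_zpow, hw, one_zpow]
  have nz : ∀ n i, ‖τ (((z n).1 i : ℂˣ) : ℂ)‖ = 1 := by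
    intro n i
    obtain ⟨v, hv⟩ := closure_range_mem u _ (hcoset n i)
    have h1 : (z n).1 i = x₀ i * ∏ j, u j ^ v j := by
      rw [← hv, mul_div_cancel]
    rw [h1, Units.val_mul, map_mul, norm_mul, nx, one_mul]
    exact nprod u hτu v
  obtain ⟨L, hL, hres⟩ := dml_of_embedding Ψ (coord (x₀, y₀)) τ (by
      intro o mm
      rcases o with o | i
      · show ‖τ ((rename Sum.inl (monoP gg E o)).coeff mm)‖ ≤ 1
        unfold monoP
        rw [rename_monomial, coeff_monomial]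
        split_ifs
        · rcases o with i | i
          · exact hτγ i
          · exact hτγ' i
        · rw [map_zero, norm_zero]
          exact zero_le_one
      · exact hτF i mm) (by
      intro o
      rcases o with (i | i) | i
      · exact hτx i
      · exact hτx' i
      · exact hτy i) 0 (by
      intro n _
      rw [hdet, map_mul, norm_mul, nE, one_mul, map_mul, norm_mul, Units.val_mul, map_mul, norm_mul,
        nc, one_mul, nprod _ (nz n), one_mul, map_prod, norm_prod]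
      apply Finset.prod_eq_one
      intro s' _
      obtain ⟨v, hv⟩ := hchar n s'
      have h1 : (((∏ j, (z n).1 j ^ χ s' j : ℂˣ) : ℂ) - a s') =
          -(((∏ j, x₀ j ^ χ s' j : ℂˣ) : ℂ) * (((b s' : ℂˣ) : ℂ) - ∏ j, ((u j : ℂˣ) : ℂ) ^ v j)) := by
        rw [hv]
        have h2 : a s' = (∏ j, x₀ j ^ χ s' j) * b s' := by
          rw [hb]
          simp only
          rw [mul_div_cancel]
        rw [h2, Units.val_mul, Units.val_mul, Units.coe_prod (fun j => u j ^ v j)]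
        simp only [Units.val_zpow_eq_zpow_val]
        ring
      rw [h1, map_neg, norm_neg, map_mul, norm_mul, nprod _ nx, one_mul]
      exact hτ s' v)
  refine ⟨L, hL, fun V => ?_⟩
  obtain ⟨T, hT, hT2⟩ := hres V
  refine ⟨T, hT, ?_⟩
  rw [← hT2]
  ext n
  simp only [Set.mem_ofPred_eq, hiter]
  rfl

end Pool.Agent.Results.MP_295d38_ag.TorusSkewProducts
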