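import Pool.Agent.H864.AddEmb
import Pool.Agent.H864.Skew

/-!
# The dynamical Mordell-Lang conjecture for skew products over translations

We consider the endomorphisms `Φ(x, y) = (x + c, F(x, y))` of `𝔸^r × 𝔸^m` over `ℂ` such that the
Jacobian determinant `J(x)` of the fibre maps `y ↦ F(x, y)` depends only on `x`. So `Φ` is ramified
along the fibres over the hypersurface `J = 0` of `𝔸^r`, for example it may contract them. Let `x₀`
be a point of `𝔸^r`, and consider the finitely many complex numbers `t` with `J(x₀ + t c) = 0` (the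
complex times at which the orbit of `x₀` meets the ramification). The theorem is the full dynamical
Mordell-Lang property for all starting points `(x₀, y₀)` and all subvarieties `V` over `ℂ`, if
these numbers `t` are algebraic and if there is one field automorphism `σ` of `ℂ` which moves all of
them.

Since the stabilizer of `t` has index `d(t) = [ℚ(t) : ℚ]`, an automorphism `σ` exists if
`∑ 1 / d(t) < 1`, or if `∑ 1 / d(t) = 1` and there are at least two times; for example if `J(x₀ + t c)`
is a product of a constant and of a power of a polynomial which is irreducible over `ℚ` of degree at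
least two (Jordan), or if there is only one time and it is irrational. The condition means that there
are infinitely many primes `p` and places above them such that no `t` is congruent to an integer.

For `r = 1`, `c = 1` and `F(x, y) = A(x) y` this contains the theorem of Skolem-Mahler-Lech for
`P`-recursive sequences `∑_j P_j(n) u(n + j) = 0`, `j ≤ s`, such that the roots of `P_0 P_s` are algebraic
and moved by one automorphism (let `y_n` be the vector `(u(n), ..., u(n + s - 1))` times
`P_s(0) ⋯ P_s(n - 1)`).
-/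

set_option autoImplicit false

namespace Pool.Agent.Results.MP_295d38_ag.TranslationSkewProducts

open MvPolynomial Pool.Agent.H936R2 Pool.Agent.H864.Skew Pool.Agent.H864.Pad Pool.Agent.H864.Kum

/-- The endomorphism `(x, y) ↦ (x + c, F(x, y))` of the affine space `𝔸^r × 𝔸^m`. -/
noncomputable def skewMap {r m : ℕ} (c : Fin r → ℂ) (F : Fin m → MvPolynomial (Fin r ⊕ Fin m) ℂ)
    (z : (Fin r ⊕ Fin m) → ℂ) : (Fin r ⊕ Fin m) → ℂ :=
  Sum.elim (fun i => z (Sum.inl i) + c i) (fun i => eval z (F i))

theorem result (r m : ℕ) (c : Fin r → ℂ) (F : Fin m → MvPolynomial (Fin r ⊕ Fin m) ℂ)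
    (J : MvPolynomial (Fin r) ℂ)
    (hJ : ∀ x y, (Matrix.of fun i j => eval (Sum.elim x y) (pderiv (Sum.inr j) (F i))).det = eval x J)
    (x₀ : Fin r → ℂ) (y₀ : Fin m → ℂ) (σ : ℂ ≃+* ℂ)
    (hσ : ∀ t : ℂ, eval (fun i => x₀ i + t * c i) J = 0 → IsAlgebraic ℚ t ∧ σ t ≠ t) :
    ∃ L : ℕ, 0 < L ∧ ∀ V : Set (MvPolynomial (Fin r ⊕ Fin m) ℂ),
      ∃ T : Finset (ℕ × ℕ), (∀ q ∈ T, q.2 = 0 ∨ q.2 = L) ∧
        {n : ℕ | ∀ g ∈ V, eval ((skewMap c F)^[n] (Sum.elim x₀ y₀)) g = 0} =
          {n : ℕ | ∃ q ∈ T, ∃ k : ℕ, n = q.1 + q.2 * k} := by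
  classical
  -- the polynomial of the times
  let P : Polynomial ℂ := MvPolynomial.aeval (fun i => Polynomial.C (x₀ i) + Polynomial.X * Polynomial.C (c i)) J
  have hP : ∀ t : ℂ, P.eval t = eval (fun i => x₀ i + t * c i) J := by
    intro t
    have h1 := MvPolynomial.eval₂_comp_left (Polynomial.evalRingHom t) (algebraMap ℂ (Polynomial ℂ))
      (fun i => Polynomial.C (x₀ i) + Polynomial.X * Polynomial.C (c i)) J
    have h2 : (Polynomial.evalRingHom t).comp (algebraMap ℂ (Polynomial ℂ)) = RingHom.id ℂ := by
      apply RingHom.ext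
      intro a
      simp
    rw [h2] at h1
    show Polynomial.evalRingHom t (MvPolynomial.eval₂ (algebraMap ℂ (Polynomial ℂ)) _ J) = _
    rw [h1]
    show eval₂ (RingHom.id ℂ) _ J = eval₂ (RingHom.id ℂ) _ J
    congr 1
    funext i
    simp
    exact mul_comm _ _
  have hP0 : P ≠ 0 := by
    intro h0
    have h1 : eval (fun i => x₀ i + (0 : ℂ) * c i) J = 0 := by
      rw [← hP, h0, Polynomial.eval_zero]
    exact (hσ 0 h1).2 (map_zero σ)
  have hroots : ∀ t ∈ P.roots.toFinset, IsAlgebraic ℚ t ∧ σ t ≠ t := by
    intro t ht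
    rw [Multiset.mem_toFinset, Polynomial.mem_roots hP0, Polynomial.IsRoot.def, hP] at ht
    exact hσ t ht
  -- the polynomial self-map
  let G : Fin r → MvPolynomial (Fin r) ℂ := fun i => X i + C (c i)
  let Ψ := skewP G F
  have hG : ∀ x, pt G x = fun i => x i + c i := by
    intro x
    funext i
    show eval x (X i + C (c i)) = _
    simp
  have hstep : ∀ z, pt Ψ z = skewMap c F z := by
    intro z
    have h1 : z = Sum.elim (fun i => z (Sum.inl i)) (fun i => z (Sum.inr i)) := by
      funext o
      rcases o with i | i <;> rfl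
    rw [h1, pt_skewP, hG]
    rfl
  have hiter : ∀ n, (pt Ψ)^[n] (Sum.elim x₀ y₀) = (skewMap c F)^[n] (Sum.elim x₀ y₀) := by
    intro n
    rw [show pt Ψ = skewMap c F from funext hstep]
  have hbase : ∀ n i, (pt Ψ)^[n] (Sum.elim x₀ y₀) (Sum.inl i) = x₀ i + (n : ℂ) * c i := by
    intro n
    induction n with
    | zero =>
      intro i
      simp
    | succ n ih =>
      intro i
      rw [Function.iterate_succ_apply', hstep]
      show (pt Ψ)^[n] (Sum.elim x₀ y₀) (Sum.inl i) + c i = _
      rw [ih]
      push_cast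
      ring
  have hdet : ∀ n, (jac Ψ ((pt Ψ)^[n] (Sum.elim x₀ y₀))).det = P.eval (n : ℂ) := by
    intro n
    set z := (pt Ψ)^[n] (Sum.elim x₀ y₀) with hz
    have h1 : z = Sum.elim (fun i => x₀ i + (n : ℂ) * c i) (fun i => z (Sum.inr i)) := by
      funext o
      rcases o with i | i
      · exact hbase n i
      · rfl
    rw [h1, det_jac_skewP, hJ, hP]
    have h2 : jac G (fun i => x₀ i + (n : ℂ) * c i) = 1 := by
      ext i j
      show eval _ (pderiv j (X i + C (c i))) = _
      rw [map_add, pderiv_C, add_zero, pderiv_X, Matrix.one_apply]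
      by_cases hij : i = j
      · subst hij
        simp
      · rw [if_neg hij, Pi.single_eq_of_ne hij, map_zero]
    rw [h2, Matrix.det_one, one_mul]
  -- the embedding
  let cf : MvPolynomial (Fin r ⊕ Fin m) ℂ → Finset ℂ := fun f => f.support.image f.coeff
  let s : Finset ℂ := (Finset.univ.biUnion fun i => cf (F i)) ∪ Finset.univ.image y₀ ∪
    Finset.univ.image x₀ ∪ Finset.univ.image c ∪ {P.leadingCoeff, P.leadingCoeff⁻¹}
  obtain ⟨p, hp, -, τ, hτs, hτ⟩ := exists_add_embedding P.roots.toFinset
    (fun a ha => (hroots a ha).1) σ (fun a ha => (hroots a ha).2) s 0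
  have nl : ‖τ P.leadingCoeff‖ = 1 := norm_eq_one_of_inv τ (Polynomial.leadingCoeff_ne_zero.2 hP0)
    (hτs _ (by simp [s])) (hτs _ (by simp [s]))
  have hτF : ∀ i, ∀ mm, ‖τ ((F i).coeff mm)‖ ≤ 1 := by
    intro i mm
    by_cases hm : mm ∈ (F i).support
    · apply hτs
      simp only [s, Finset.mem_union]
      exact Or.inl (Or.inl (Or.inl (Or.inl (Finset.mem_biUnion.2
        ⟨i, Finset.mem_univ i, Finset.mem_image_of_mem _ hm⟩))))
    · rw [MvPolynomial.notMem_support_iff.1 hm, map_zero, norm_zero]
      exact zero_le_one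
  have hτy : ∀ i, ‖τ (y₀ i)‖ ≤ 1 := fun i => hτs _ (by
    simp only [s, Finset.mem_union]
    exact Or.inl (Or.inl (Or.inl (Or.inr (Finset.mem_image_of_mem _ (Finset.mem_univ i))))))
  have hτx : ∀ i, ‖τ (x₀ i)‖ ≤ 1 := fun i => hτs _ (by
    simp only [s, Finset.mem_union]
    exact Or.inl (Or.inl (Or.inr (Finset.mem_image_of_mem _ (Finset.mem_univ i)))))
  have hτc : ∀ i, ‖τ (c i)‖ ≤ 1 := fun i => hτs _ (by
    simp only [s, Finset.mem_union]
    exact Or.inl (Or.inr (Finset.mem_image_of_mem _ (Finset.mem_univ i))))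
  obtain ⟨L, hL, hres⟩ := dml_of_embedding Ψ (Sum.elim x₀ y₀) τ (by
      intro o mm
      rcases o with i | i
      · show ‖τ ((rename Sum.inl (X i + C (c i))).coeff mm)‖ ≤ 1
        rw [map_add, rename_X, rename_C, coeff_add, map_add, coeff_X, coeff_C]
        refine (IsUltrametricDist.norm_add_le_max _ _).trans (max_le ?_ ?_)
        · split_ifs <;> simp
        · split_ifs
          · exact hτc i
          · simp
      · exact hτF i mm) (by
      intro o
      rcases o with i | i
      · exact hτx i
      · exact hτy i) 0 (by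
      intro n _
      rw [hdet]
      have h1 : P = Polynomial.C P.leadingCoeff * (P.roots.map fun a => Polynomial.X - Polynomial.C a).prod :=
        (IsAlgClosed.splits P).eq_prod_roots
      have h2 : P.eval (n : ℂ) = P.leadingCoeff * (P.roots.map fun a => ((n : ℂ) - a)).prod := by
        conv_lhs => rw [h1]
        rw [Polynomial.eval_mul, Polynomial.eval_C, Polynomial.eval_multiset_prod, Multiset.map_map]
        simp
      rw [h2, map_mul, norm_mul, nl, one_mul]
      have h3 : ∀ u : Multiset ℂ, (∀ a ∈ u, a ∈ P.roots.toFinset) →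
          ‖τ (u.map fun a => ((n : ℂ) - a)).prod‖ = 1 := by
        intro u
        induction u using Multiset.induction_on with
        | empty => simp
        | cons a u ih =>
          intro h
          rw [Multiset.map_cons, Multiset.prod_cons, map_mul, norm_mul,
            ih (fun b hb => h b (Multiset.mem_cons_of_mem hb)), mul_one]
          exact hτ a (h a (Multiset.mem_cons_self a u)) n
      exact h3 P.roots fun a ha => Multiset.mem_toFinset.2 ha)
  refine ⟨L, hL, fun V => ?_⟩
  obtain ⟨T, hT, hT2⟩ := hres V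
  refine ⟨T, hT, ?_⟩
  rw [← hT2]
  simp only [hiter]

end Pool.Agent.Results.MP_295d38_ag.TranslationSkewProducts
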